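import Pool.Agent.U139.Riv.Pair

/-!
# Chirps in dyadic annuli: uniform lower bounds for the dual functions
-/

set_option autoImplicit false
open MeasureTheory Filter Topology Metric Set

namespace Pool.Agent.U139.Riv

/-- radial bump: `1` on `[10, 14]`, support in `(8, 16)` -/
noncomputable def ηb : ContDiffBump (12 : ℝ) := ⟨2, 4, two_pos, by norm_num⟩

/-- angular bump: `1` on `[-1/2, 3/2]`, support in `(-3/2, 5/2)` -/
noncomputable def gb : ContDiffBump (1 / 2 : ℝ) := ⟨1, 2, one_pos, by norm_num⟩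

lemma ηb_supp {t : ℝ} (h : ηb t ≠ 0) : 8 < t ∧ t < 16 := by
  have h1 : ¬ (ηb.rOut ≤ dist t 12) := fun hh => h (ηb.zero_of_le_dist hh)
  have h2 : dist t 12 < 4 := not_le.1 h1
  rw [Real.dist_eq, abs_lt] at h2
  constructor <;> linarith [h2.1, h2.2]

lemma ηb_one {t : ℝ} (h1 : 10 ≤ t) (h2 : t ≤ 14) : ηb t = 1 := by
  apply ηb.one_of_mem_closedBall
  rw [mem_closedBall, Real.dist_eq]
  change |t - 12| ≤ 2
  rw [abs_le]
  constructor <;> linarith

lemma gb_supp {t : ℝ} (h : gb t ≠ 0) : -(3 / 2) < t ∧ t < 5 / 2 := by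
  have h1 : ¬ (gb.rOut ≤ dist t (1 / 2)) := fun hh => h (gb.zero_of_le_dist hh)
  have h2 : dist t (1 / 2) < 2 := not_le.1 h1
  rw [Real.dist_eq, abs_lt] at h2
  constructor <;> linarith [h2.1, h2.2]

lemma gb_one {t : ℝ} (h1 : -(1 / 2) ≤ t) (h2 : t ≤ 3 / 2) : gb t = 1 := by
  apply gb.one_of_mem_closedBall
  rw [mem_closedBall, Real.dist_eq]
  change |t - 1 / 2| ≤ 1
  rw [abs_le]
  constructor <;> linarith

/-- a chirp in the annulus `8N < -y₀ < 16N` -/
noncomputable def wave (N : ℝ) (θ : ℝ → ℝ) (y : E2) : ℝ :=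
  ηb (-(y 0) / N) * gb (y 1 / y 0) * θ (2 * Real.pi * N * (y 1 / y 0))

lemma wave_supp {N : ℝ} (hN : 1 ≤ N) {θ : ℝ → ℝ} {y : E2} (h : wave N θ y ≠ 0) :
    -(16 * N) < y 0 ∧ y 0 < -(8 * N) ∧ |y 1| ≤ 3 * |y 0| := by
  unfold wave at h
  have h1 : ηb (-(y 0) / N) ≠ 0 := left_ne_zero_of_mul (left_ne_zero_of_mul h)
  have h2 : gb (y 1 / y 0) ≠ 0 := right_ne_zero_of_mul (left_ne_zero_of_mul h)
  obtain ⟨h3, h4⟩ := ηb_supp h1
  obtain ⟨h5, h6⟩ := gb_supp h2
  have hN0 : 0 < N := by linarith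
  rw [lt_div_iff₀ hN0] at h3
  rw [div_lt_iff₀ hN0] at h4
  have h7 : y 0 < -(8 * N) := by linarith
  refine ⟨by linarith, h7, ?_⟩
  have h8 : |y 1 / y 0| ≤ 3 := by
    rw [abs_le]
    constructor <;> linarith
  have h9 : y 0 ≠ 0 := by
    intro h9
    rw [h9] at h7
    linarith
  rwa [abs_div, div_le_iff₀ (abs_pos.2 h9)] at h8

lemma wave_smooth {N : ℝ} (hN : 1 ≤ N) {θ : ℝ → ℝ} (hθ : ContDiff ℝ 1 θ) :
    ContDiff ℝ 1 (wave N θ) := by
  have hN0 : 0 < N := by linarith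
  rw [contDiff_iff_contDiffAt]
  intro y
  by_cases hy : y 0 < -N
  · have hne : y 0 ≠ 0 := by
      intro h0
      rw [h0] at hy
      linarith
    have c0 : ContDiffAt ℝ 1 (fun y : E2 => y 0) y := by fun_prop
    have c1 : ContDiffAt ℝ 1 (fun y : E2 => y 1) y := by fun_prop
    have c2 : ContDiffAt ℝ 1 (fun y : E2 => y 1 / y 0) y := c1.div c0 hne
    have d1 : ContDiffAt ℝ 1 (fun y : E2 => ηb (-(y 0) / N)) y :=
      ηb.contDiff.contDiffAt.comp y (c0.neg.div_const N)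
    have d2 : ContDiffAt ℝ 1 (fun y : E2 => gb (y 1 / y 0)) y :=
      gb.contDiff.contDiffAt.comp y c2
    have d3 : ContDiffAt ℝ 1 (fun y : E2 => θ (2 * Real.pi * N * (y 1 / y 0))) y :=
      hθ.contDiffAt.comp y (contDiffAt_const.mul c2)
    exact (d1.mul d2).mul d3
  · push Not at hy
    have hev : wave N θ =ᶠ[𝓝 y] fun _ => 0 := by
      have hopen : IsOpen {z : E2 | -(8 * N) < z 0} :=
        isOpen_lt continuous_const (by fun_prop)
      have hmem : y ∈ {z : E2 | -(8 * N) < z 0} := by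
        change -(8 * N) < y 0
        linarith
      filter_upwards [hopen.mem_nhds hmem] with z hz
      by_contra hne
      have h1 := (wave_supp hN hne).2.1
      have h2 : -(8 * N) < z 0 := hz
      linarith
    exact contDiffAt_const.congr_of_eventuallyEq hev

lemma wave_bound (N : ℝ) {θ : ℝ → ℝ} (hb : ∀ t, |θ t| ≤ 1) (y : E2) : |wave N θ y| ≤ 1 := by
  unfold wave
  rw [abs_mul, abs_mul]
  have h1 : |ηb (-(y 0) / N)| ≤ 1 := by
    rw [abs_of_nonneg ηb.nonneg]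
    exact ηb.le_one
  have h2 : |gb (y 1 / y 0)| ≤ 1 := by
    rw [abs_of_nonneg gb.nonneg]
    exact gb.le_one
  exact mul_le_one₀ (mul_le_one₀ h1 (abs_nonneg _) h2) (abs_nonneg _) (hb _)

lemma wave_test {N : ℝ} (hN : 1 ≤ N) {θ : ℝ → ℝ} (hθ : ContDiff ℝ 1 θ) (hb : ∀ t, |θ t| ≤ 1) :
    Test (16 * N) (wave N θ) where
  smooth := wave_smooth hN hθ
  compact := by
    refine HasCompactSupport.intro (isCompact_closedBall (0 : E2) (100 * N)) (fun y hy => ?_)
    by_contra hne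
    apply hy
    obtain ⟨h1, h2, h3⟩ := wave_supp hN hne
    rw [mem_closedBall, dist_zero_right]
    have h4 := norm_sq y
    have h5 : |y 0| ≤ 16 * N := by
      rw [abs_le]
      constructor <;> linarith
    have h6 : y 0 ^ 2 ≤ (16 * N) ^ 2 := by
      rw [← sq_abs]
      gcongr
    have h7 : y 1 ^ 2 ≤ (48 * N) ^ 2 := by
      rw [← sq_abs]
      have : |y 1| ≤ 48 * N := by linarith
      gcongr
    apply le_of_sq_le_sq _ (by linarith)
    nlinarith
  bound := wave_bound N hb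
  supp := fun y hy => by
    obtain ⟨h1, h2, _⟩ := wave_supp hN hy
    constructor <;> linarith

/-- the combination of the two chirps which is bounded below -/
noncomputable def D (N v : ℝ) (q : (ℝ × ℝ) × ℝ) : ℝ :=
  Real.cos (2 * Real.pi * N * v) * W (wave N Real.sin) q v -
    Real.sin (2 * Real.pi * N * v) * W (wave N Real.cos) q v

lemma D_eq (N v : ℝ) (q : (ℝ × ℝ) × ℝ) : D N v q =
    Ψ q.1 * (q.2)⁻¹ * (ηb (-(q.1.1 - q.2) / N) * gb ((q.1.2 - q.2 * v) / (q.1.1 - q.2))) *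
      Real.sin (2 * Real.pi * N * ((q.1.2 - q.2 * v) / (q.1.1 - q.2) - v)) := by
  unfold D W fh wave
  simp only [φ_symm0, φ_symm1]
  have e : 2 * Real.pi * N * ((q.1.2 - q.2 * v) / (q.1.1 - q.2) - v) =
      2 * Real.pi * N * ((q.1.2 - q.2 * v) / (q.1.1 - q.2)) - 2 * Real.pi * N * v := by ring
  rw [e, Real.sin_sub]
  ring

/-- sine estimates on the relevant range -/
lemma sin_facts {N v p1 p2 s : ℝ} (hN : 1 ≤ N) (hv : v ∈ Ioo (0 : ℝ) 1) (hp1 : |p1| ≤ 1 / 8)
    (hp2 : 1 / 4 ≤ p2) (hp2' : p2 ≤ 1 / 2) (hs1 : -(16 * N) < s) (hs2 : s < -(8 * N)) :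
    Real.sin (2 * Real.pi * N * ((p2 - v * p1) / s)) ≤ 0 ∧
    (-(14 * N) ≤ s → 1 / 28 ≤ - Real.sin (2 * Real.pi * N * ((p2 - v * p1) / s))) := by
  have hs0 : s < 0 := by linarith
  have hvp : |v * p1| ≤ 1 / 8 := by
    rw [abs_mul, abs_of_pos hv.1]
    calc v * |p1| ≤ 1 * (1 / 8) := mul_le_mul hv.2.le hp1 (abs_nonneg _) zero_le_one
      _ = 1 / 8 := by norm_num
  obtain ⟨hvp1, hvp2⟩ := abs_le.1 hvp
  set w := p2 - v * p1 with hw
  have hw1 : 1 / 8 ≤ w := by linarith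
  have hw2 : w ≤ 5 / 8 := by linarith
  have hpi := Real.pi_pos
  set t := 2 * Real.pi * N * (w / (-s)) with ht
  have e : 2 * Real.pi * N * (w / s) = -t := by
    rw [ht, div_neg]
    ring
  have ht0 : 0 ≤ t := by
    rw [ht]
    have : 0 < -s := by linarith
    positivity
  have hns : 0 < -s := by linarith
  have ht1 : t ≤ Real.pi / 2 := by
    rw [ht]
    have h1 : N * (w / (-s)) ≤ 1 / 4 := by
      rw [mul_div_assoc', div_le_iff₀ hns]
      nlinarith
    nlinarith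
  rw [e, Real.sin_neg, neg_neg]
  have hsin0 : 0 ≤ Real.sin t := Real.sin_nonneg_of_nonneg_of_le_pi ht0 (by linarith)
  refine ⟨by linarith, fun hs3 => ?_⟩
  have h2 := Real.mul_le_sin ht0 ht1
  refine le_trans ?_ h2
  have h3 : 1 / 112 ≤ N * (w / (-s)) := by
    rw [mul_div_assoc', le_div_iff₀ hns]
    nlinarith
  have h4 : 2 / Real.pi * t = 4 * (N * (w / (-s))) := by
    rw [ht]
    field_simp
    ring
  rw [h4]
  linarith

lemma ψ1_one {t : ℝ} (h : |t| ≤ 1 / 8) : ψ1 t = 1 := by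
  unfold ψ1
  rw [if_pos h]

lemma ψ2_pos {t : ℝ} (h1 : 1 / 4 ≤ t) (h2 : t ≤ 1 / 2) : ψ2 t = -1 := by
  unfold ψ2
  rw [if_neg (by rw [mem_Icc]; rintro ⟨h3, h4⟩; linarith), if_pos ⟨h1, h2⟩]

lemma D_nonneg {N v : ℝ} (hN : 1 ≤ N) (hv : v ∈ Ioo (0 : ℝ) 1) (q : (ℝ × ℝ) × ℝ) : 0 ≤ D N v q := by
  rw [D_eq]
  by_cases hΨ : Ψ q.1 = 0
  · rw [hΨ]
    simp
  by_cases hη : ηb (-(q.1.1 - q.2) / N) = 0
  · rw [hη]
    simp
  obtain ⟨h1, h2, h3⟩ := Ψ_supp hΨ
  obtain ⟨h4, h5⟩ := ηb_supp hη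
  have hN0 : 0 < N := by linarith
  rw [lt_div_iff₀ hN0] at h4
  rw [div_lt_iff₀ hN0] at h5
  set s := q.1.1 - q.2 with hs
  have hs1 : -(16 * N) < s := by linarith
  have hs2 : s < -(8 * N) := by linarith
  have hsne : s ≠ 0 := by
    intro h0
    rw [h0] at hs2
    linarith
  have ha : 0 < q.2 := by
    have := (abs_le.1 h1).1
    linarith
  have e : (q.1.2 - q.2 * v) / s - v = (q.1.2 - v * q.1.1) / s := by
    rw [div_sub' hsne]
    congr 1
    rw [hs]
    ring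
  rw [e]
  have hη0 : 0 ≤ ηb (-s / N) := ηb.nonneg
  have hg0 : 0 ≤ gb ((q.1.2 - q.2 * v) / s) := gb.nonneg
  have key : 0 ≤ Ψ q.1 * Real.sin (2 * Real.pi * N * ((q.1.2 - v * q.1.1) / s)) := by
    unfold Ψ
    rw [ψ1_one h1, one_mul]
    rcases le_abs.1 h2 with h6 | h6
    · have h7 : q.1.2 ≤ 1 / 2 := (le_abs_self _).trans h3
      rw [ψ2_pos h6 h7]
      have := (sin_facts hN hv h1 h6 h7 hs1 hs2).1
      linarith
    · have h7 : -q.1.2 ≤ 1 / 2 := (neg_le_abs _).trans h3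
      have h8 : ψ2 q.1.2 = 1 := by
        have := ψ2_neg (-q.1.2)
        rw [neg_neg, ψ2_pos h6 h7, neg_neg] at this
        exact this
      rw [h8, one_mul]
      have h9 := (sin_facts (p1 := -q.1.1) hN hv (by rwa [abs_neg]) h6 h7 hs1 hs2).1
      have e2 : 2 * Real.pi * N * ((-q.1.2 - v * -q.1.1) / s) =
          -(2 * Real.pi * N * ((q.1.2 - v * q.1.1) / s)) := by ring
      rw [e2, Real.sin_neg] at h9
      linarith
  have : Ψ q.1 * (q.2)⁻¹ * (ηb (-s / N) * gb ((q.1.2 - q.2 * v) / s)) *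
      Real.sin (2 * Real.pi * N * ((q.1.2 - v * q.1.1) / s)) =
      (q.2)⁻¹ * (ηb (-s / N) * gb ((q.1.2 - q.2 * v) / s)) *
      (Ψ q.1 * Real.sin (2 * Real.pi * N * ((q.1.2 - v * q.1.1) / s))) := by ring
  rw [this]
  positivity

/-- the good region -/
def reg (N : ℝ) : Set ((ℝ × ℝ) × ℝ) :=
  (Icc (-(1 / 8)) (1 / 8) ×ˢ Icc (1 / 4) (1 / 2)) ×ˢ Icc (11 * N) (13 * N)

lemma reg_meas (N : ℝ) : MeasurableSet (reg N) :=
  (measurableSet_Icc.prod measurableSet_Icc).prod measurableSet_Icc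

lemma reg_compact (N : ℝ) : IsCompact (reg N) := (isCompact_Icc.prod isCompact_Icc).prod isCompact_Icc

lemma reg_vol {N : ℝ} (hN : 1 ≤ N) : volume.real (reg N) = N / 8 := by
  unfold reg Measure.real
  rw [Measure.volume_eq_prod, Measure.prod_prod, Measure.volume_eq_prod, Measure.prod_prod,
    Real.volume_Icc, Real.volume_Icc, Real.volume_Icc, ENNReal.toReal_mul, ENNReal.toReal_mul,
    ENNReal.toReal_ofReal (by norm_num), ENNReal.toReal_ofReal (by norm_num),
    ENNReal.toReal_ofReal (by linarith)]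
  ring

lemma D_lower {N v : ℝ} (hN : 1 ≤ N) (hv : v ∈ Ioo (0 : ℝ) 1) (q : (ℝ × ℝ) × ℝ) (hq : q ∈ reg N) :
    1 / (364 * N) ≤ D N v q := by
  obtain ⟨⟨⟨a1, a2⟩, ⟨b1, b2⟩⟩, ⟨c1, c2⟩⟩ := hq
  have hN0 : 0 < N := by linarith
  have h1 : |q.1.1| ≤ 1 / 8 := abs_le.2 ⟨a1, a2⟩
  rw [D_eq]
  set s := q.1.1 - q.2 with hs
  have hs1 : -(14 * N) ≤ s := by linarith
  have hs2 : s ≤ -(10 * N) := by linarith
  have hsne : s ≠ 0 := by
    intro h0
    rw [h0] at hs2
    linarith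
  have hη : ηb (-s / N) = 1 := by
    apply ηb_one
    · rw [le_div_iff₀ hN0]
      linarith
    · rw [div_le_iff₀ hN0]
      linarith
  have e : (q.1.2 - q.2 * v) / s - v = (q.1.2 - v * q.1.1) / s := by
    rw [div_sub' hsne]
    congr 1
    rw [hs]
    ring
  have hvp : |v * q.1.1| ≤ 1 / 8 := by
    rw [abs_mul, abs_of_pos hv.1]
    calc v * |q.1.1| ≤ 1 * (1 / 8) := mul_le_mul hv.2.le h1 (abs_nonneg _) zero_le_one
      _ = 1 / 8 := by norm_num
  obtain ⟨hvp1, hvp2⟩ := abs_le.1 hvp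
  have hg : gb ((q.1.2 - q.2 * v) / s) = 1 := by
    have e' : (q.1.2 - q.2 * v) / s = v + (q.1.2 - v * q.1.1) / s := by linarith
    have h5 : |(q.1.2 - v * q.1.1) / s| ≤ 1 / 2 := by
      rw [abs_div, div_le_iff₀ (abs_pos.2 hsne), abs_of_neg (by linarith : s < 0)]
      have : |q.1.2 - v * q.1.1| ≤ 5 / 8 := by
        rw [abs_le]
        constructor <;> linarith
      linarith
    obtain ⟨h6, h7⟩ := abs_le.1 h5
    rw [e']
    apply gb_one <;> linarith [hv.1, hv.2]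
  have h8 := (sin_facts hN hv h1 b1 b2 (by linarith : -(16 * N) < s) (by linarith : s < -(8 * N))).2 hs1
  have hΨ : Ψ q.1 = -1 := by
    unfold Ψ
    rw [ψ1_one h1, ψ2_pos b1 b2]
    norm_num
  rw [e, hη, hg, hΨ]
  have hq2 : 0 < q.2 := by linarith
  have h9 : 1 / (13 * N) ≤ (q.2)⁻¹ := by
    rw [one_div]
    exact inv_anti₀ hq2 c2
  calc 1 / (364 * N) = (1 / (13 * N)) * (1 / 28) := by
        field_simp
        norm_num
    _ ≤ (q.2)⁻¹ * (- Real.sin (2 * Real.pi * N * ((q.1.2 - v * q.1.1) / s))) :=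
        mul_le_mul h9 h8 (by norm_num) (by positivity)
    _ = _ := by ring

lemma sin_test {N : ℝ} (hN : 1 ≤ N) : Test (16 * N) (wave N Real.sin) :=
  wave_test hN Real.contDiff_sin Real.abs_sin_le_one

lemma cos_test {N : ℝ} (hN : 1 ≤ N) : Test (16 * N) (wave N Real.cos) :=
  wave_test hN Real.contDiff_cos Real.abs_cos_le_one

lemma D_integral {N v : ℝ} (hN : 1 ≤ N) (hv : v ∈ Ioo (0 : ℝ) 1) :
    1 / 2912 ≤ Real.cos (2 * Real.pi * N * v) * Φ (wave N Real.sin) v -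
      Real.sin (2 * Real.pi * N * v) * Φ (wave N Real.cos) v := by
  have i1 := W_integrable (sin_test hN) v
  have i2 := W_integrable (cos_test hN) v
  have e : Real.cos (2 * Real.pi * N * v) * Φ (wave N Real.sin) v -
      Real.sin (2 * Real.pi * N * v) * Φ (wave N Real.cos) v = ∫ q, D N v q := by
    unfold Φ D
    rw [integral_sub (i1.const_mul _) (i2.const_mul _), integral_const_mul, integral_const_mul]
  rw [e]
  have hD : Integrable (D N v) := (i1.const_mul _).sub (i2.const_mul _)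
  have hr : Integrable ((reg N).indicator fun _ => 1 / (364 * N)) :=
    (integrableOn_const (reg_compact N).measure_lt_top.ne).integrable_indicator (reg_meas N)
  have hle : ∫ q, (reg N).indicator (fun _ => 1 / (364 * N)) q ≤ ∫ q, D N v q := by
    refine integral_mono hr hD (fun q => ?_)
    by_cases hq : q ∈ reg N
    · simp only [indicator_of_mem hq]
      exact D_lower hN hv q hq
    · simp only [indicator_of_notMem hq]
      exact D_nonneg hN hv q
  refine le_trans (le_of_eq ?_) hle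
  rw [integral_indicator_const _ (reg_meas N), reg_vol hN, smul_eq_mul]
  field_simp
  norm_num

/-- `L²` size of the dual function -/
noncomputable def N2 (f : E2 → ℝ) : ℝ := ∫ v in Ioo (0 : ℝ) 1, Φ f v ^ 2

lemma N2_integrable {R : ℝ} {f : E2 → ℝ} (hf : Test R f) :
    IntegrableOn (fun v => Φ f v ^ 2) (Ioo (0 : ℝ) 1) := by
  set B := ∫ q, (box R).indicator (fun _ => (1 : ℝ)) q with hB
  refine Integrable.mono' (g := fun _ => B ^ 2) (integrableOn_const (by simp))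
    ((Φ_meas hf).pow_const 2).aestronglyMeasurable (Eventually.of_forall fun v => ?_)
  rw [Real.norm_eq_abs, abs_pow]
  have := Φ_bound hf v
  gcongr

lemma wave_lower {N : ℝ} (hN : 1 ≤ N) :
    (1 / 2912) ^ 2 ≤ N2 (wave N Real.sin) + N2 (wave N Real.cos) := by
  unfold N2
  rw [← integral_add (N2_integrable (sin_test hN)) (N2_integrable (cos_test hN))]
  have h1 : ∫ v in Ioo (0 : ℝ) 1, ((1 / 2912 : ℝ)) ^ 2 = (1 / 2912) ^ 2 := by
    rw [setIntegral_const]
    simp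
  rw [← h1]
  refine setIntegral_mono_on (integrableOn_const (by simp))
    ((N2_integrable (sin_test hN)).add (N2_integrable (cos_test hN))) measurableSet_Ioo
    (fun v hv => ?_)
  have h2 := D_integral hN hv
  set a := Φ (wave N Real.sin) v
  set b := Φ (wave N Real.cos) v
  set c := Real.cos (2 * Real.pi * N * v)
  set s := Real.sin (2 * Real.pi * N * v)
  have hcs : s ^ 2 + c ^ 2 = 1 := Real.sin_sq_add_cos_sq _
  have h3 : (1 / 2912 : ℝ) ^ 2 ≤ (c * a - s * b) ^ 2 := by gcongr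
  have h4 : (c * a - s * b) ^ 2 ≤ a ^ 2 + b ^ 2 := by
    have : a ^ 2 + b ^ 2 - (c * a - s * b) ^ 2 = (s * a + c * b) ^ 2 := by
      have h5 : a ^ 2 + b ^ 2 = (s ^ 2 + c ^ 2) * (a ^ 2 + b ^ 2) := by rw [hcs, one_mul]
      rw [h5]
      ring
    nlinarith [sq_nonneg (s * a + c * b)]
  linarith

lemma W_add (f g : E2 → ℝ) (q : (ℝ × ℝ) × ℝ) (v : ℝ) : W (f + g) q v = W f q v + W g q v := by
  unfold W fh
  simp only [Pi.add_apply]
  ring

lemma W_sub (f g : E2 → ℝ) (q : (ℝ × ℝ) × ℝ) (v : ℝ) : W (f - g) q v = W f q v - W g q v := by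
  unfold W fh
  simp only [Pi.sub_apply]
  ring

lemma Φ_add {R R' : ℝ} {f g : E2 → ℝ} (hf : Test R f) (hg : Test R' g) (v : ℝ) :
    Φ (f + g) v = Φ f v + Φ g v := by
  unfold Φ
  simp_rw [W_add]
  exact integral_add (W_integrable hf v) (W_integrable hg v)

lemma Φ_sub {R R' : ℝ} {f g : E2 → ℝ} (hf : Test R f) (hg : Test R' g) (v : ℝ) :
    Φ (f - g) v = Φ f v - Φ g v := by
  unfold Φ
  simp_rw [W_sub]
  exact integral_sub (W_integrable hf v) (W_integrable hg v)

/-- parallelogram law -/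
lemma N2_par {R R' : ℝ} {f g : E2 → ℝ} (hf : Test R f) (hg : Test R' g)
    (ha : Test R' (f + g)) (hs : Test R' (f - g)) :
    N2 (f + g) + N2 (f - g) = 2 * N2 f + 2 * N2 g := by
  unfold N2
  rw [← integral_add (N2_integrable ha) (N2_integrable hs), ← integral_const_mul, ← integral_const_mul,
    ← integral_add ((N2_integrable hf).const_mul 2) ((N2_integrable hg).const_mul 2)]
  congr 1
  ext v
  rw [Φ_add hf hg, Φ_sub hf hg]
  ring

/-- the step of the construction -/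
lemma step {R : ℝ} (hR : 1 ≤ R) {f : E2 → ℝ} (hf : Test R f) {θ : ℝ → ℝ} (hθ : ContDiff ℝ 1 θ)
    (hb : ∀ t, |θ t| ≤ 1) : Test (16 * R) (f + wave R θ) ∧ Test (16 * R) (f - wave R θ) := by
  have hw := wave_test hR hθ hb
  have hdis : ∀ y, f y = 0 ∨ wave R θ y = 0 := by
    intro y
    by_contra hcon
    push Not at hcon
    have h1 := (hf.supp y hcon.1).1
    have h2 := (wave_supp hR hcon.2).2.1
    linarith
  have hsupp : ∀ y, (f y ≠ 0 ∨ wave R θ y ≠ 0) → -(16 * R) ≤ y 0 ∧ y 0 ≤ -8 := by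
    rintro y (h | h)
    · have := hf.supp y h
      constructor <;> linarith [this.1, this.2]
    · exact hw.supp y h
  constructor
  · refine ⟨hf.smooth.add hw.smooth, hf.compact.add hw.compact, fun y => ?_, fun y hy => ?_⟩
    · rcases hdis y with h | h
      · rw [Pi.add_apply, h, zero_add]
        exact hw.bound y
      · rw [Pi.add_apply, h, add_zero]
        exact hf.bound y
    · apply hsupp
      by_contra hcon
      push Not at hcon
      apply hy
      rw [Pi.add_apply, hcon.1, hcon.2, add_zero]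
  · refine ⟨hf.smooth.sub hw.smooth, hf.compact.sub hw.compact, fun y => ?_, fun y hy => ?_⟩
    · rcases hdis y with h | h
      · rw [Pi.sub_apply, h, zero_sub, abs_neg]
        exact hw.bound y
      · rw [Pi.sub_apply, h, sub_zero]
        exact hf.bound y
    · apply hsupp
      by_contra hcon
      push Not at hcon
      apply hy
      rw [Pi.sub_apply, hcon.1, hcon.2, sub_zero]

lemma step2 {R : ℝ} (hR : 1 ≤ R) {f : E2 → ℝ} (hf : Test R f) {θ : ℝ → ℝ} (hθ : ContDiff ℝ 1 θ)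
    (hb : ∀ t, |θ t| ≤ 1) : ∃ g, Test (16 * R) g ∧ N2 f + N2 (wave R θ) ≤ N2 g := by
  obtain ⟨h1, h2⟩ := step hR hf hθ hb
  have hp := N2_par hf (wave_test hR hθ hb) h1 h2
  by_cases h : N2 f + N2 (wave R θ) ≤ N2 (f + wave R θ)
  · exact ⟨_, h1, h⟩
  · exact ⟨_, h2, by linarith⟩

lemma zero_test : Test 1 (fun _ : E2 => (0 : ℝ)) where
  smooth := contDiff_const
  compact := HasCompactSupport.zero
  bound := fun _ => by simp
  supp := fun _ h => absurd rfl h

lemma N2_nonneg (f : E2 → ℝ) : 0 ≤ N2 f := by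
  unfold N2
  exact setIntegral_nonneg measurableSet_Ioo fun _ _ => sq_nonneg _

/-- test functions with arbitrarily large dual functions -/
theorem unbounded (J : ℕ) : ∃ R : ℝ, 1 ≤ R ∧ ∃ f : E2 → ℝ, Test R f ∧
    J * ((1 / 2912) ^ 2 / 2) ≤ N2 f := by
  induction J with
  | zero =>
    refine ⟨1, le_rfl, _, zero_test, ?_⟩
    simp only [Nat.cast_zero, zero_mul]
    exact N2_nonneg _
  | succ J ih =>
    obtain ⟨R, hR, f, hf, hJ⟩ := ih
    have hw := wave_lower hR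
    have hcases : (1 / 2912) ^ 2 / 2 ≤ N2 (wave R Real.sin) ∨ (1 / 2912) ^ 2 / 2 ≤ N2 (wave R Real.cos) := by
      by_contra hcon
      push Not at hcon
      linarith [hcon.1, hcon.2]
    rcases hcases with h | h
    · obtain ⟨g, hg, hN⟩ := step2 hR hf Real.contDiff_sin Real.abs_sin_le_one
      refine ⟨16 * R, by linarith, g, hg, ?_⟩
      push_cast
      linarith
    · obtain ⟨g, hg, hN⟩ := step2 hR hf Real.contDiff_cos Real.abs_cos_le_one
      refine ⟨16 * R, by linarith, g, hg, ?_⟩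
      push_cast
      linarith

end Pool.Agent.U139.Riv
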