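import Mathlib

/-!
# Rough homogeneous kernels in the plane: coordinates and integrability
-/

set_option autoImplicit false
open MeasureTheory Filter Topology Metric Set

namespace Pool.Agent.U139.Riv

abbrev E2 := EuclideanSpace ℝ (Fin 2)

/-- the coordinates of the plane as a measurable equivalence -/
noncomputable def φ : E2 ≃ᵐ ℝ × ℝ :=
  (MeasurableEquiv.toLp 2 (Fin 2 → ℝ)).symm.trans MeasurableEquiv.finTwoArrow

lemma φ_apply (x : E2) : φ x = (x 0, x 1) := rfl

lemma φ_mp : MeasurePreserving φ volume volume :=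
  (volume_preserving_finTwoArrow ℝ).comp
    (EuclideanSpace.volume_preserving_symm_measurableEquiv_toLp (Fin 2))

lemma int_coord (F : ℝ × ℝ → ℝ) : ∫ x : E2, F (x 0, x 1) = ∫ p : ℝ × ℝ, F p :=
  φ_mp.integral_comp' F

lemma integrable_coord (F : ℝ × ℝ → ℝ) :
    Integrable (fun x : E2 => F (x 0, x 1)) ↔ Integrable F :=
  φ_mp.integrable_comp_emb φ.measurableEmbedding

/-- `h(b/a)/|a|` on the strip `|a| ≤ R` -/
noncomputable def base (h : ℝ → ℝ) (R : ℝ) (p : ℝ × ℝ) : ℝ :=
  if |p.1| ≤ R then h (p.2 / p.1) / |p.1| else 0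

lemma base_meas {h : ℝ → ℝ} (hm : Measurable h) (R : ℝ) : Measurable (base h R) := by
  unfold base
  refine Measurable.ite (measurableSet_le (by fun_prop) measurable_const) ?_ measurable_const
  exact (hm.comp (by fun_prop)).div (by fun_prop)

lemma base_integrable {h : ℝ → ℝ} (hm : Measurable h) (hi : Integrable h) (R : ℝ) :
    Integrable (base h R) (volume : Measure (ℝ × ℝ)) := by
  rw [Measure.volume_eq_prod, integrable_prod_iff (base_meas hm R).aestronglyMeasurable]
  constructor
  · refine Eventually.of_forall fun a => ?_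
    unfold base
    by_cases ha : |a| ≤ R
    · simp only [ha, if_true]
      by_cases h0 : a = 0
      · simp [h0]
      · exact (hi.comp_div h0).div_const _
    · simp only [ha, if_false]
      exact integrable_zero _ _ _
  · have e : (fun a : ℝ => ∫ b : ℝ, ‖base h R (a, b)‖) =ᵐ[volume]
        (Icc (-R) R).indicator (fun _ => ∫ u, |h u|) := by
      have h0 : ∀ᵐ a : ℝ ∂volume, a ≠ 0 := by
        rw [ae_iff]
        simp
      filter_upwards [h0] with a ha0
      by_cases ha : |a| ≤ R
      · have hmem : a ∈ Icc (-R) R := by rw [mem_Icc]; exact abs_le.1 ha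
        rw [indicator_of_mem hmem]
        have : ∀ b : ℝ, ‖base h R (a, b)‖ = |h (b / a)| / |a| := by
          intro b
          unfold base
          simp only [ha, if_true, Real.norm_eq_abs, abs_div, abs_abs]
        simp_rw [this]
        rw [integral_div, Measure.integral_comp_div (fun u => |h u|) a]
        simp only [smul_eq_mul]
        have : |a| ≠ 0 := abs_ne_zero.2 ha0
        field_simp
      · have hmem : a ∉ Icc (-R) R := by rw [mem_Icc]; exact fun hh => ha (abs_le.2 hh)
        rw [indicator_of_notMem hmem]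
        have : ∀ b : ℝ, ‖base h R (a, b)‖ = 0 := by
          intro b
          unfold base
          simp only [ha, if_false, norm_zero]
        simp_rw [this]
        simp
    refine Integrable.congr ?_ e.symm
    exact (integrableOn_const (by simp)).integrable_indicator measurableSet_Icc


/-- the kernel with angular profile `h` in the cone `0 < x₁ / x₀ < 1` -/
noncomputable def ker (h : ℝ → ℝ) (x : E2) : ℝ := h (x 1 / x 0) / (x 0 * |x 0|)

lemma ker_meas {h : ℝ → ℝ} (hm : Measurable h) : Measurable (ker h) := by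
  unfold ker
  exact (hm.comp (by fun_prop)).div (by fun_prop)

lemma ker_homog (h : ℝ → ℝ) (x : E2) (t : ℝ) (ht : 0 < t) :
    ker h (t • x) = t ^ (-((2 : ℕ) : ℤ)) * ker h x := by
  unfold ker
  have h0 : (t • x) 0 = t * x 0 := rfl
  have h1 : (t • x) 1 = t * x 1 := rfl
  rw [h0, h1, mul_div_mul_left _ _ ht.ne', abs_mul, abs_of_pos ht]
  rw [zpow_neg, zpow_natCast]
  field_simp

lemma ker_neg (h : ℝ → ℝ) (x : E2) : ker h (-x) = - ker h x := by
  unfold ker
  have h0 : (-x) 0 = - x 0 := rfl
  have h1 : (-x) 1 = - x 1 := rfl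
  rw [h0, h1, neg_div_neg_eq, abs_neg, neg_mul, div_neg]

/-- support hypothesis on the profile -/
def Supp (h : ℝ → ℝ) : Prop := ∀ u, u ∉ Ioo (0 : ℝ) 1 → h u = 0

lemma norm_sq (x : E2) : ‖x‖ ^ 2 = x 0 ^ 2 + x 1 ^ 2 := by
  rw [EuclideanSpace.norm_sq_eq]
  simp [Fin.sum_univ_two]

lemma abs_le_norm0 (x : E2) : |x 0| ≤ ‖x‖ := by
  have := norm_sq x
  apply abs_le_of_sq_le_sq _ (norm_nonneg x)
  nlinarith [sq_nonneg (x 1)]

lemma abs_le_norm1 (x : E2) : |x 1| ≤ ‖x‖ := by
  have := norm_sq x
  apply abs_le_of_sq_le_sq _ (norm_nonneg x)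
  nlinarith [sq_nonneg (x 0)]

/-- on the support of the kernel the norm is comparable to the first coordinate -/
lemma norm_le_of_ne {h : ℝ → ℝ} (hs : Supp h) {x : E2} (hx : h (x 1 / x 0) ≠ 0) :
    ‖x‖ ≤ 2 * |x 0| ∧ x 0 ≠ 0 := by
  have hmem : x 1 / x 0 ∈ Ioo (0 : ℝ) 1 := by
    by_contra hcon
    exact hx (hs _ hcon)
  have h0 : x 0 ≠ 0 := by
    intro h0
    rw [h0, div_zero] at hmem
    exact lt_irrefl _ hmem.1
  refine ⟨?_, h0⟩
  have h1 : |x 1| ≤ |x 0| := by
    have : |x 1 / x 0| ≤ 1 := by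
      rw [abs_of_pos hmem.1]
      exact hmem.2.le
    rwa [abs_div, div_le_one (abs_pos.2 h0)] at this
  have h2 := norm_sq x
  have h3 : x 1 ^ 2 ≤ x 0 ^ 2 := sq_le_sq.2 h1
  apply le_of_sq_le_sq _ (by positivity)
  rw [mul_pow, sq_abs]
  nlinarith [sq_nonneg (x 0)]

lemma ker_mul_norm_le {h : ℝ → ℝ} (hs : Supp h) (x : E2) (R : ℝ) (hR : ‖x‖ ≤ R) :
    |ker h x| * ‖x‖ ≤ 2 * |base h R (x 0, x 1)| := by
  by_cases hx : h (x 1 / x 0) = 0
  · unfold ker
    rw [hx]
    simp
  · obtain ⟨h1, h2⟩ := norm_le_of_ne hs hx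
    have hp : 0 < |x 0| := abs_pos.2 h2
    have hb : base h R (x 0, x 1) = h (x 1 / x 0) / |x 0| := by
      unfold base
      simp only
      rw [if_pos ((abs_le_norm0 x).trans hR)]
    rw [hb]
    unfold ker
    rw [abs_div, abs_div, abs_mul, abs_abs]
    have : |h (x 1 / x 0)| / (|x 0| * |x 0|) * ‖x‖ ≤ |h (x 1 / x 0)| / (|x 0| * |x 0|) * (2 * |x 0|) :=
      mul_le_mul_of_nonneg_left h1 (by positivity)
    refine this.trans (le_of_eq ?_)
    field_simp

/-- `k(y) F(y)` is integrable as soon as `|F(y)| ≤ L ‖y‖` and `F` vanishes for `‖y‖ > R`. -/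
lemma ker_mul_integrable {h : ℝ → ℝ} (hs : Supp h) (hm : Measurable h) (hi : Integrable h)
    (F : E2 → ℝ) (hF : Measurable F) (L R : ℝ) (h1 : ∀ y, |F y| ≤ L * ‖y‖)
    (h2 : ∀ y, R < ‖y‖ → F y = 0) : Integrable (fun y => ker h y * F y) := by
  have hb : Integrable (fun y : E2 => 2 * |L| * |base h R (y 0, y 1)|) :=
    (((integrable_coord (base h R)).2 (base_integrable hm hi R)).abs).const_mul _
  refine hb.mono' ((ker_meas hm).mul hF).aestronglyMeasurable (Eventually.of_forall fun y => ?_)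
  rw [Real.norm_eq_abs, abs_mul]
  by_cases hy : R < ‖y‖
  · rw [h2 y hy]
    simp
    positivity
  · push Not at hy
    have h3 := ker_mul_norm_le hs y R hy
    have h4 : |F y| ≤ |L| * ‖y‖ := (h1 y).trans (mul_le_mul_of_nonneg_right (le_abs_self L) (norm_nonneg _))
    calc |ker h y| * |F y| ≤ |ker h y| * (|L| * ‖y‖) := mul_le_mul_of_nonneg_left h4 (abs_nonneg _)
      _ = |L| * (|ker h y| * ‖y‖) := by ring
      _ ≤ |L| * (2 * |base h R (y 0, y 1)|) := mul_le_mul_of_nonneg_left h3 (abs_nonneg _)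
      _ = _ := by ring

/-- the annulus of the statement -/
def ann : Set E2 := {x | 1 ≤ ‖x‖ ∧ ‖x‖ ≤ 2}

lemma ann_meas : MeasurableSet ann :=
  (measurableSet_le measurable_const measurable_norm).inter
    (measurableSet_le measurable_norm measurable_const)

lemma ker_ann_integrable {h : ℝ → ℝ} (hs : Supp h) (hm : Measurable h) (hi : Integrable h) :
    IntegrableOn (ker h) ann := by
  have := ker_mul_integrable hs hm hi (ann.indicator fun _ => (1 : ℝ))
    (measurable_const.indicator ann_meas) 1 2 ?_ ?_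
  · rw [← integrable_indicator_iff ann_meas]
    refine this.congr (Eventually.of_forall fun y => ?_)
    by_cases hy : y ∈ ann
    · simp [hy]
    · simp [hy]
  · intro y
    by_cases hy : y ∈ ann
    · rw [indicator_of_mem hy, abs_one, one_mul]
      exact hy.1
    · rw [indicator_of_notMem hy, abs_zero]
      positivity
  · intro y hy
    apply indicator_of_notMem
    intro h3
    exact absurd h3.2 (not_le.2 hy)

/-- oddness: the integral over a symmetric set vanishes -/
lemma ker_int_symm (h : ℝ → ℝ) (S : Set E2) (hS : MeasurableSet S) (hsym : ∀ x, x ∈ S ↔ -x ∈ S) :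
    ∫ x in S, ker h x = 0 := by
  have e : ∫ x, S.indicator (ker h) x = ∫ x, S.indicator (ker h) (-x) :=
    (integral_neg_eq_self (S.indicator (ker h)) volume).symm
  have e2 : ∀ x, S.indicator (ker h) (-x) = - S.indicator (ker h) x := by
    intro x
    by_cases hx : x ∈ S
    · rw [indicator_of_mem hx, indicator_of_mem ((hsym x).1 hx), ker_neg]
    · rw [indicator_of_notMem hx, indicator_of_notMem (fun h => hx ((hsym x).2 h)), neg_zero]
  simp_rw [e2] at e
  rw [integral_neg, integral_indicator hS] at e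
  linarith

lemma ker_ann_int (h : ℝ → ℝ) : ∫ x in ann, ker h x = 0 := by
  apply ker_int_symm h ann ann_meas
  intro x
  unfold ann
  simp

lemma base_sq_bound {h : ℝ → ℝ} (hs : Supp h) (x : E2) (hx : x ∈ ann) :
    ker h x ^ 2 ≤ 8 * |base (fun u => h u ^ 2) 2 (x 0, x 1)| := by
  by_cases hh : h (x 1 / x 0) = 0
  · unfold ker
    rw [hh]
    simp
  · obtain ⟨h1, h2⟩ := norm_le_of_ne hs hh
    have hp : 0 < |x 0| := abs_pos.2 h2
    have hhalf : 1 / 2 ≤ |x 0| := by
      have := hx.1
      linarith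
    have hb : base (fun u => h u ^ 2) 2 (x 0, x 1) = h (x 1 / x 0) ^ 2 / |x 0| := by
      unfold base
      simp only
      rw [if_pos ((abs_le_norm0 x).trans hx.2)]
    rw [hb]
    unfold ker
    rw [abs_of_nonneg (by positivity : (0:ℝ) ≤ h (x 1 / x 0) ^ 2 / |x 0|)]
    rw [div_pow, mul_pow, sq_abs]
    have e : h (x 1 / x 0) ^ 2 / (x 0 ^ 2 * x 0 ^ 2) = (h (x 1 / x 0) ^ 2 / |x 0|) * (1 / |x 0| ^ 3) := by
      rw [← sq_abs (x 0)]
      field_simp
    rw [e, mul_comm (8 : ℝ)]
    apply mul_le_mul_of_nonneg_left _ (by positivity)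
    rw [div_le_iff₀ (by positivity)]
    have : (1 / 2 : ℝ) ^ 3 ≤ |x 0| ^ 3 := by gcongr
    linarith

lemma ker_llogl {h : ℝ → ℝ} (hs : Supp h) (hm : Measurable h)
    (hi2 : Integrable (fun u => h u ^ 2)) :
    IntegrableOn (fun x => |ker h x| * max 0 (Real.log |ker h x|)) ann := by
  have hb : IntegrableOn (fun y : E2 => 8 * |base (fun u => h u ^ 2) 2 (y 0, y 1)|) ann :=
    ((((integrable_coord (base (fun u => h u ^ 2) 2)).2
      (base_integrable (hm.pow_const 2) hi2 2)).abs).const_mul _).integrableOn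
  refine Integrable.mono' hb ?_ ?_
  · refine Measurable.aestronglyMeasurable ?_
    have := ker_meas hm
    fun_prop
  · rw [ae_restrict_iff' ann_meas]
    refine Eventually.of_forall fun x hx => ?_
    refine le_trans ?_ (base_sq_bound hs x hx)
    rw [Real.norm_eq_abs, abs_of_nonneg (by positivity), ← sq_abs, sq]
    apply mul_le_mul_of_nonneg_left _ (abs_nonneg _)
    apply max_le (abs_nonneg _)
    rcases eq_or_lt_of_le (abs_nonneg (ker h x)) with h0 | h0
    · rw [← h0]
      simp
    · have := Real.log_le_sub_one_of_pos h0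
      linarith

end Pool.Agent.U139.Riv
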