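import Pool.Agent.U139.Riv.Coord

/-!
# Principal values of rough kernels on smooth functions
-/

set_option autoImplicit false
open MeasureTheory Filter Topology Metric Set

namespace Pool.Agent.U139.Riv

/-- the test functions: `C¹`, compact support in the strip `-R ≤ y₀ ≤ -8`, bounded by `1` -/
structure Test (R : ℝ) (f : E2 → ℝ) : Prop where
  smooth : ContDiff ℝ 1 f
  compact : HasCompactSupport f
  bound : ∀ y, |f y| ≤ 1
  supp : ∀ y, f y ≠ 0 → -R ≤ y 0 ∧ y 0 ≤ -8

lemma Test.lip {R : ℝ} {f : E2 → ℝ} (hf : Test R f) : ∃ K : ℝ, 0 ≤ K ∧ ∀ x y, |f x - f y| ≤ K * ‖x - y‖ := by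
  obtain ⟨C, hC⟩ := hf.smooth.lipschitzWith_of_hasCompactSupport hf.compact one_ne_zero
  refine ⟨C, C.2, fun x y => ?_⟩
  have := hC.dist_le_mul x y
  rwa [Real.dist_eq, dist_eq_norm] at this

lemma Test.bdd {R : ℝ} {f : E2 → ℝ} (hf : Test R f) : ∃ S : ℝ, 0 ≤ S ∧ ∀ y, S < ‖y‖ → f y = 0 := by
  obtain ⟨S, hS⟩ := hf.compact.isCompact.isBounded.subset_closedBall 0
  refine ⟨max S 0, le_max_right _ _, fun y hy => ?_⟩
  by_contra h
  have h1 : y ∈ tsupport f := subset_tsupport f h
  have h2 := hS h1
  rw [mem_closedBall, dist_zero_right] at h2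
  have := le_max_left S 0
  linarith

/-- the principal value integral -/
noncomputable def G (h : ℝ → ℝ) (f : E2 → ℝ) (x : E2) : ℝ :=
  ∫ y, ker h y * ((f (x - y) - f (x + y)) / 2)

variable {h : ℝ → ℝ} {R : ℝ} {f : E2 → ℝ}

lemma Test.meas (hf : Test R f) : Measurable f := hf.smooth.continuous.measurable

lemma G_integrable (hs : Supp h) (hm : Measurable h) (hi : Integrable h) (hf : Test R f) (x : E2) :
    Integrable (fun y => ker h y * ((f (x - y) - f (x + y)) / 2)) := by
  obtain ⟨K, hK, hlip⟩ := hf.lip
  obtain ⟨S, hS, hbd⟩ := hf.bdd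
  have hfm := hf.meas
  refine ker_mul_integrable hs hm hi _ (by fun_prop) K (S + ‖x‖) (fun y => ?_) (fun y hy => ?_)
  · have := hlip (x - y) (x + y)
    have e : ‖x - y - (x + y)‖ = 2 * ‖y‖ := by
      have : x - y - (x + y) = (-2 : ℝ) • y := by
        rw [neg_smul, two_smul]
        abel
      rw [this, norm_smul]
      norm_num
    rw [e] at this
    rw [abs_div, abs_of_pos (two_pos : (0:ℝ) < 2), div_le_iff₀ two_pos]
    linarith
  · have h1 : S < ‖x - y‖ := by
      have := norm_sub_norm_le y x
      rw [norm_sub_rev] at this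
      linarith
    have h2 : S < ‖x + y‖ := by
      have := norm_sub_norm_le y (-x)
      rw [norm_neg, sub_neg_eq_add, add_comm y x] at this
      linarith
    rw [hbd _ h1, hbd _ h2]
    simp

lemma trunc_integrable (hs : Supp h) (hm : Measurable h) (hi : Integrable h) (hf : Test R f) (x : E2)
    (ε : ℝ) (hε : 0 < ε) :
    IntegrableOn (fun y => ker h y * f (x - y)) {y | ε < ‖y‖} := by
  obtain ⟨S, hS, hbd⟩ := hf.bdd
  have hfm := hf.meas
  have hset : MeasurableSet {y : E2 | ε < ‖y‖} := measurableSet_lt measurable_const measurable_norm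
  have := ker_mul_integrable hs hm hi ({y : E2 | ε < ‖y‖}.indicator fun y => f (x - y))
    (Measurable.indicator (by fun_prop) hset) (1 / ε) (S + ‖x‖) ?_ ?_
  · rw [← integrable_indicator_iff hset]
    refine this.congr (Eventually.of_forall fun y => ?_)
    by_cases hy : y ∈ {y : E2 | ε < ‖y‖}
    · simp only [indicator_of_mem hy]
    · simp only [indicator_of_notMem hy, mul_zero]
  · intro y
    by_cases hy : y ∈ {y : E2 | ε < ‖y‖}
    · rw [indicator_of_mem hy]
      have h1 := hf.bound (x - y)
      have h2 : ε < ‖y‖ := hy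
      have : 1 ≤ 1 / ε * ‖y‖ := by
        rw [one_div, inv_mul_eq_div, le_div_iff₀ hε]
        linarith
      linarith
    · rw [indicator_of_notMem hy, abs_zero]
      positivity
  · intro y hy
    have h1 : S < ‖x - y‖ := by
      have := norm_sub_norm_le y x
      rw [norm_sub_rev] at this
      linarith
    by_cases hy' : y ∈ {y : E2 | ε < ‖y‖}
    · rw [indicator_of_mem hy', hbd _ h1]
    · rw [indicator_of_notMem hy']

lemma trunc_eq (hs : Supp h) (hm : Measurable h) (hi : Integrable h) (hf : Test R f) (x : E2)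
    (ε : ℝ) (hε : 0 < ε) :
    ∫ y in {y : E2 | ε < ‖y‖}, ker h y * f (x - y) =
      ∫ y, {y : E2 | ε < ‖y‖}.indicator (fun y => ker h y * ((f (x - y) - f (x + y)) / 2)) y := by
  have hset : MeasurableSet {y : E2 | ε < ‖y‖} := measurableSet_lt measurable_const measurable_norm
  have h1 := trunc_integrable hs hm hi hf x ε hε
  rw [← integral_indicator hset]
  have h1' := (integrable_indicator_iff hset).2 h1
  have e1 : ∫ y, {y : E2 | ε < ‖y‖}.indicator (fun y => ker h y * f (x - y)) y =
      ∫ y, {y : E2 | ε < ‖y‖}.indicator (fun y => ker h y * f (x - y)) (-y) :=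
    (integral_neg_eq_self _ volume).symm
  have e2 : ∀ y : E2, {y : E2 | ε < ‖y‖}.indicator (fun y => ker h y * f (x - y)) (-y) =
      - {y : E2 | ε < ‖y‖}.indicator (fun y => ker h y * f (x + y)) y := by
    intro y
    by_cases hy : y ∈ {y : E2 | ε < ‖y‖}
    · have hy' : -y ∈ {y : E2 | ε < ‖y‖} := by
        rw [mem_setOf_eq, norm_neg]
        exact hy
      rw [indicator_of_mem hy, indicator_of_mem hy', ker_neg, sub_neg_eq_add]
      ring
    · have hy' : -y ∉ {y : E2 | ε < ‖y‖} := by
        rw [mem_setOf_eq, norm_neg]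
        exact hy
      rw [indicator_of_notMem hy, indicator_of_notMem hy', neg_zero]
  have h2' : Integrable ({y : E2 | ε < ‖y‖}.indicator (fun y => ker h y * f (x + y))) := by
    have := h1'.comp_neg.neg
    refine this.congr (Eventually.of_forall fun y => ?_)
    simp only [Pi.neg_apply]
    rw [e2, neg_neg]
  have e3 : ∀ y : E2, {y : E2 | ε < ‖y‖}.indicator (fun y => ker h y * ((f (x - y) - f (x + y)) / 2)) y =
      ({y : E2 | ε < ‖y‖}.indicator (fun y => ker h y * f (x - y)) y -
        {y : E2 | ε < ‖y‖}.indicator (fun y => ker h y * f (x + y)) y) / 2 := by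
    intro y
    by_cases hy : y ∈ {y : E2 | ε < ‖y‖}
    · rw [indicator_of_mem hy, indicator_of_mem hy, indicator_of_mem hy]
      ring
    · rw [indicator_of_notMem hy, indicator_of_notMem hy, indicator_of_notMem hy]
      ring
  simp_rw [e3]
  rw [integral_div, integral_sub h1' h2']
  simp_rw [e2] at e1
  rw [integral_neg] at e1
  linarith

lemma ker_zero (h : ℝ → ℝ) : ker h 0 = 0 := by
  unfold ker
  simp

lemma pv (hs : Supp h) (hm : Measurable h) (hi : Integrable h) (hf : Test R f) (x : E2) :
    Tendsto (fun ε : ℝ => ∫ y in {y : E2 | ε < ‖y‖}, ker h y * f (x - y)) (𝓝[>] 0)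
      (𝓝 (G h f x)) := by
  have hG := G_integrable hs hm hi hf x
  have hfm := hf.meas
  have key : Tendsto (fun ε : ℝ => ∫ y, {y : E2 | ε < ‖y‖}.indicator
      (fun y => ker h y * ((f (x - y) - f (x + y)) / 2)) y) (𝓝[>] 0) (𝓝 (G h f x)) := by
    unfold G
    refine tendsto_integral_filter_of_dominated_convergence
      (fun y => ‖ker h y * ((f (x - y) - f (x + y)) / 2)‖) ?_ ?_ hG.norm ?_
    · refine Eventually.of_forall fun ε => ?_
      exact hG.aestronglyMeasurable.indicator (measurableSet_lt measurable_const measurable_norm)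
    · refine Eventually.of_forall fun ε => Eventually.of_forall fun y => ?_
      exact norm_indicator_le_norm_self _ _
    · refine Eventually.of_forall fun y => ?_
      by_cases hy : y = 0
      · subst hy
        have : ∀ ε : ℝ, {y : E2 | ε < ‖y‖}.indicator
            (fun y => ker h y * ((f (x - y) - f (x + y)) / 2)) 0 = 0 := by
          intro ε
          by_cases h0 : (0 : E2) ∈ {y : E2 | ε < ‖y‖}
          · rw [indicator_of_mem h0, ker_zero, zero_mul]
          · rw [indicator_of_notMem h0]
        simp_rw [this]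
        rw [ker_zero, zero_mul]
        exact tendsto_const_nhds
      · have hpos : 0 < ‖y‖ := norm_pos_iff.2 hy
        refine Tendsto.congr' ?_ tendsto_const_nhds
        have : ∀ᶠ ε : ℝ in 𝓝[>] 0, ε < ‖y‖ :=
          (eventually_lt_nhds hpos).filter_mono nhdsWithin_le_nhds
        filter_upwards [this] with ε hε
        rw [indicator_of_mem (show y ∈ {y : E2 | ε < ‖y‖} from hε)]
  refine key.congr' ?_
  filter_upwards [self_mem_nhdsWithin] with ε hε
  exact (trunc_eq hs hm hi hf x ε hε).symm

/-- near the origin the principal value is an absolutely convergent integral -/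
lemma near_integrable (hs : Supp h) (hm : Measurable h) (hi : Integrable h) (hf : Test R f) (x : E2)
    (hx : ‖x‖ ≤ 1) : Integrable (fun y => ker h y * f (x - y)) := by
  obtain ⟨S, hS, hbd⟩ := hf.bdd
  have hfm := hf.meas
  refine ker_mul_integrable hs hm hi _ (by fun_prop) 1 (S + ‖x‖) (fun y => ?_) (fun y hy => ?_)
  · by_cases h0 : f (x - y) = 0
    · rw [h0, abs_zero]
      positivity
    · have h1 := (hf.supp _ h0).2
      have h2 : (x - y) 0 = x 0 - y 0 := rfl
      rw [h2] at h1
      have h3 := abs_le_norm0 x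
      have h4 := abs_le_norm0 y
      have h5 := abs_le.1 h3
      have h6 := le_abs_self (y 0)
      have := hf.bound (x - y)
      linarith
  · apply hbd
    have := norm_sub_norm_le y x
    rw [norm_sub_rev] at this
    linarith

lemma G_near (hs : Supp h) (hm : Measurable h) (hi : Integrable h) (hf : Test R f) (x : E2)
    (hx : ‖x‖ ≤ 1) : G h f x = ∫ y, ker h y * f (x - y) := by
  have h1 := near_integrable hs hm hi hf x hx
  have e1 : ∫ y, ker h y * f (x - y) = ∫ y, ker h (-y) * f (x - (-y)) :=
    (integral_neg_eq_self (fun y => ker h y * f (x - y)) volume).symm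
  have h2 : Integrable (fun y => ker h y * f (x + y)) := by
    have := h1.comp_neg.neg
    refine this.congr (Eventually.of_forall fun y => ?_)
    simp only [Pi.neg_apply]
    rw [ker_neg, sub_neg_eq_add]
    ring
  have e2 : ∫ y, ker h (-y) * f (x - (-y)) = - ∫ y, ker h y * f (x + y) := by
    rw [← integral_neg]
    congr 1
    ext y
    rw [ker_neg, sub_neg_eq_add]
    ring
  unfold G
  have e3 : ∀ y, ker h y * ((f (x - y) - f (x + y)) / 2) =
      (ker h y * f (x - y) - ker h y * f (x + y)) / 2 := by
    intro y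
    ring
  simp_rw [e3]
  rw [integral_div, integral_sub h1 h2]
  linarith

end Pool.Agent.U139.Riv
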