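import Pool.Agent.U139.Riv.PV

/-!
# The pairing of `K f` with a fixed bump is a pairing of the angular profile with `Φ f`
-/

set_option autoImplicit false
open MeasureTheory Filter Topology Metric Set

namespace Pool.Agent.U139.Riv

lemma φ_symm0 (a b : ℝ) : (φ.symm (a, b)) 0 = a := by
  have := φ.apply_symm_apply (a, b)
  rw [φ_apply] at this
  exact congrArg Prod.fst this

lemma φ_symm1 (a b : ℝ) : (φ.symm (a, b)) 1 = b := by
  have := φ.apply_symm_apply (a, b)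
  rw [φ_apply] at this
  exact congrArg Prod.snd this

/-- `f` in coordinates -/
noncomputable def fh (f : E2 → ℝ) (a b : ℝ) : ℝ := f (φ.symm (a, b))

lemma fh_eq (f : E2 → ℝ) (y : E2) : f y = fh f (y 0) (y 1) := by
  unfold fh
  rw [← φ_apply, φ.symm_apply_apply]

lemma fh_sub (f : E2 → ℝ) (x y : E2) : f (x - y) = fh f (x 0 - y 0) (x 1 - y 1) :=
  fh_eq f (x - y)

/-- the profile of the dual bump in `x₀` -/
noncomputable def ψ1 (t : ℝ) : ℝ := if |t| ≤ 1 / 8 then 1 else 0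

/-- the profile of the dual bump in `x₁` -/
noncomputable def ψ2 (t : ℝ) : ℝ :=
  if t ∈ Icc (-(1 / 2) : ℝ) (-(1 / 4)) then 1 else if t ∈ Icc (1 / 4 : ℝ) (1 / 2) then -1 else 0

noncomputable def Ψ (p : ℝ × ℝ) : ℝ := ψ1 p.1 * ψ2 p.2

lemma ψ1_meas : Measurable ψ1 := by
  unfold ψ1
  exact Measurable.ite (measurableSet_le (by fun_prop) measurable_const) measurable_const measurable_const

lemma ψ2_meas : Measurable ψ2 := by
  unfold ψ2
  exact Measurable.ite measurableSet_Icc measurable_const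
    (Measurable.ite measurableSet_Icc measurable_const measurable_const)

lemma Ψ_meas : Measurable Ψ := by
  unfold Ψ
  exact (ψ1_meas.comp measurable_fst).mul (ψ2_meas.comp measurable_snd)

lemma ψ1_abs (t : ℝ) : |ψ1 t| ≤ 1 := by
  unfold ψ1
  split_ifs <;> norm_num

lemma ψ2_abs (t : ℝ) : |ψ2 t| ≤ 1 := by
  unfold ψ2
  split_ifs <;> norm_num

lemma Ψ_abs (p : ℝ × ℝ) : |Ψ p| ≤ 1 := by
  unfold Ψ
  rw [abs_mul]
  exact mul_le_one₀ (ψ1_abs _) (abs_nonneg _) (ψ2_abs _)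

lemma ψ2_neg (t : ℝ) : ψ2 (-t) = - ψ2 t := by
  have e1 : (-t ∈ Icc (-(1 / 2) : ℝ) (-(1 / 4))) ↔ t ∈ Icc (1 / 4 : ℝ) (1 / 2) := by
    simp only [mem_Icc]
    constructor <;> rintro ⟨h1, h2⟩ <;> constructor <;> linarith
  have e2 : (-t ∈ Icc (1 / 4 : ℝ) (1 / 2)) ↔ t ∈ Icc (-(1 / 2) : ℝ) (-(1 / 4)) := by
    simp only [mem_Icc]
    constructor <;> rintro ⟨h1, h2⟩ <;> constructor <;> linarith
  unfold ψ2
  simp only [e1, e2]
  by_cases h1 : t ∈ Icc (1 / 4 : ℝ) (1 / 2)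
  · have h2 : t ∉ Icc (-(1 / 2) : ℝ) (-(1 / 4)) := by
      intro h2
      linarith [h1.1, h2.2]
    rw [if_pos h1, if_neg h2, if_pos h1, neg_neg]
  · by_cases h2 : t ∈ Icc (-(1 / 2) : ℝ) (-(1 / 4))
    · rw [if_neg h1, if_pos h2, if_pos h2]
    · rw [if_neg h1, if_neg h2, if_neg h2, if_neg h1, neg_zero]

lemma Ψ_supp {p : ℝ × ℝ} (h : Ψ p ≠ 0) : |p.1| ≤ 1 / 8 ∧ 1 / 4 ≤ |p.2| ∧ |p.2| ≤ 1 / 2 := by
  unfold Ψ at h
  have h1 : ψ1 p.1 ≠ 0 := left_ne_zero_of_mul h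
  have h2 : ψ2 p.2 ≠ 0 := right_ne_zero_of_mul h
  refine ⟨?_, ?_⟩
  · by_contra hcon
    apply h1
    unfold ψ1
    rw [if_neg hcon]
  · unfold ψ2 at h2
    split_ifs at h2 with h3 h4
    · rw [abs_of_nonpos (by linarith [h3.2])]
      constructor <;> linarith [h3.1, h3.2]
    · rw [abs_of_nonneg (by linarith [h4.1])]
      exact h4
    · exact absurd rfl h2


/-- the integrand of `Φ` -/
noncomputable def W (f : E2 → ℝ) (q : (ℝ × ℝ) × ℝ) (v : ℝ) : ℝ :=
  Ψ q.1 * (q.2)⁻¹ * fh f (q.1.1 - q.2) (q.1.2 - q.2 * v)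

/-- the dual function -/
noncomputable def Φ (f : E2 → ℝ) (v : ℝ) : ℝ := ∫ q : (ℝ × ℝ) × ℝ, W f q v

/-- the box carrying `W` -/
def box (R : ℝ) : Set ((ℝ × ℝ) × ℝ) := (Icc (-1) 1 ×ˢ Icc (-1) 1) ×ˢ Icc 7 (R + 1)

lemma box_meas (R : ℝ) : MeasurableSet (box R) :=
  (measurableSet_Icc.prod measurableSet_Icc).prod measurableSet_Icc

lemma box_compact (R : ℝ) : IsCompact (box R) := (isCompact_Icc.prod isCompact_Icc).prod isCompact_Icc

variable {h : ℝ → ℝ} {R : ℝ} {f : E2 → ℝ}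

lemma fh_meas (hf : Test R f) : Measurable (fun p : ℝ × ℝ => fh f p.1 p.2) := by
  unfold fh
  exact hf.meas.comp φ.symm.measurable

lemma W_meas (hf : Test R f) : Measurable (fun z : ((ℝ × ℝ) × ℝ) × ℝ => W f z.1 z.2) := by
  unfold W
  have h1 : Measurable (fun z : ((ℝ × ℝ) × ℝ) × ℝ => fh f (z.1.1.1 - z.1.2) (z.1.1.2 - z.1.2 * z.2)) :=
    (fh_meas hf).comp (by fun_prop : Measurable (fun z : ((ℝ × ℝ) × ℝ) × ℝ =>
      (z.1.1.1 - z.1.2, z.1.1.2 - z.1.2 * z.2)))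
  have h2 : Measurable (fun z : ((ℝ × ℝ) × ℝ) × ℝ => Ψ z.1.1) := Ψ_meas.comp (by fun_prop)
  exact (h2.mul (by fun_prop)).mul h1

lemma W_meas' (hf : Test R f) (v : ℝ) : Measurable (fun q : (ℝ × ℝ) × ℝ => W f q v) :=
  (W_meas hf).comp (by fun_prop : Measurable (fun q : (ℝ × ℝ) × ℝ => (q, v)))

lemma W_supp (hf : Test R f) {q : (ℝ × ℝ) × ℝ} {v : ℝ} (h : W f q v ≠ 0) :
    Ψ q.1 ≠ 0 ∧ -R ≤ q.1.1 - q.2 ∧ q.1.1 - q.2 ≤ -8 ∧ q ∈ box R := by
  unfold W at h
  have h1 : Ψ q.1 ≠ 0 := left_ne_zero_of_mul (left_ne_zero_of_mul h)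
  have h2 : fh f (q.1.1 - q.2) (q.1.2 - q.2 * v) ≠ 0 := right_ne_zero_of_mul h
  have h3 := hf.supp _ h2
  rw [φ_symm0] at h3
  have h4 := Ψ_supp h1
  have h5 := abs_le.1 h4.1
  have h6 := abs_le.1 h4.2.2
  refine ⟨h1, h3.1, h3.2, ?_⟩
  unfold box
  simp only [mem_prod, mem_Icc]
  refine ⟨⟨⟨?_, ?_⟩, ⟨?_, ?_⟩⟩, ⟨?_, ?_⟩⟩ <;> linarith [h3.1, h3.2, h5.1, h5.2, h6.1, h6.2]

lemma W_bound (hf : Test R f) (q : (ℝ × ℝ) × ℝ) (v : ℝ) :
    |W f q v| ≤ (box R).indicator (fun _ => (1 : ℝ)) q := by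
  by_cases h0 : W f q v = 0
  · rw [h0, abs_zero]
    exact indicator_nonneg (fun _ _ => zero_le_one) _
  · have h1 := W_supp hf h0
    rw [indicator_of_mem h1.2.2.2]
    have h2 : 7 ≤ q.2 := h1.2.2.2.2.1
    unfold W
    rw [abs_mul, abs_mul]
    have h3 : |(q.2)⁻¹| ≤ 1 := by
      rw [abs_of_nonneg (by positivity)]
      apply inv_le_one_of_one_le₀
      linarith
    exact mul_le_one₀ (mul_le_one₀ (Ψ_abs _) (abs_nonneg _) h3) (abs_nonneg _) (hf.bound _)

lemma box_integrable (R : ℝ) : Integrable ((box R).indicator (fun _ => (1 : ℝ))) :=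
  (integrableOn_const (box_compact R).measure_lt_top.ne).integrable_indicator (box_meas R)

lemma W_integrable (hf : Test R f) (v : ℝ) : Integrable (fun q => W f q v) :=
  (box_integrable R).mono' (W_meas' hf v).aestronglyMeasurable
    (Eventually.of_forall fun q => W_bound hf q v)

lemma Φ_bound (hf : Test R f) (v : ℝ) : |Φ f v| ≤ ∫ q, (box R).indicator (fun _ => (1 : ℝ)) q := by
  unfold Φ
  rw [← Real.norm_eq_abs]
  exact norm_integral_le_of_norm_le (box_integrable R) (Eventually.of_forall fun q => W_bound hf q v)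

lemma Φ_meas (hf : Test R f) : Measurable (Φ f) := by
  have h1 : StronglyMeasurable (fun z : ℝ × ((ℝ × ℝ) × ℝ) => W f z.2 z.1) :=
    ((W_meas hf).comp measurable_swap).stronglyMeasurable
  have h2 := h1.integral_prod_right' (ν := (volume : Measure ((ℝ × ℝ) × ℝ)))
  exact h2.measurable

lemma H_integrable (hf : Test R f) (hm : Measurable h) (hi : Integrable h) :
    Integrable (fun z : ((ℝ × ℝ) × ℝ) × ℝ => W f z.1 z.2 * h z.2)
      ((volume : Measure ((ℝ × ℝ) × ℝ)).prod volume) := by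
  have h1 := (box_integrable R).mul_prod hi.abs
  refine h1.mono' ((W_meas hf).mul (hm.comp measurable_snd)).aestronglyMeasurable
    (Eventually.of_forall fun z => ?_)
  rw [Real.norm_eq_abs, abs_mul]
  exact mul_le_mul_of_nonneg_right (W_bound hf _ _) (abs_nonneg _)

/-- the inner change of variables -/
lemma inner_eq (hf : Test R f) (p : ℝ × ℝ) (hp : |p.1| ≤ 1 / 8) (a : ℝ) :
    ∫ b, h (b / a) / (a * |a|) * fh f (p.1 - a) (p.2 - b) =
      ∫ v, a⁻¹ * fh f (p.1 - a) (p.2 - a * v) * h v := by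
  rcases le_or_gt a 0 with ha | ha
  · have h0 : ∀ t, fh f (p.1 - a) t = 0 := by
      intro t
      by_contra hne
      have h3 := (hf.supp _ hne).2
      rw [φ_symm0] at h3
      linarith [(abs_le.1 hp).1]
    simp only [h0]
    simp
  · have e : ∀ b, h (b / a) / (a * |a|) * fh f (p.1 - a) (p.2 - b) =
        (fun u => h u / (a * |a|) * fh f (p.1 - a) (p.2 - a * u)) (b / a) := by
      intro b
      simp only
      rw [mul_div_cancel₀ _ ha.ne']
    simp_rw [e]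
    rw [Measure.integral_comp_div (fun u => h u / (a * |a|) * fh f (p.1 - a) (p.2 - a * u)) a,
      smul_eq_mul, ← integral_const_mul]
    congr 1
    ext v
    rw [abs_of_pos ha]
    field_simp

/-- the convolution integral near the origin in polar form -/
lemma conv_eq (hs : Supp h) (hm : Measurable h) (hi : Integrable h) (hf : Test R f) (p : ℝ × ℝ)
    (hp : Ψ p ≠ 0) :
    G h f (φ.symm p) = ∫ a, ∫ v, a⁻¹ * fh f (p.1 - a) (p.2 - a * v) * h v := by
  obtain ⟨h1, h2, h3⟩ := Ψ_supp hp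
  have hn : ‖φ.symm p‖ ≤ 1 := by
    have := norm_sq (φ.symm p)
    have e : φ.symm p = φ.symm (p.1, p.2) := rfl
    rw [e, φ_symm0, φ_symm1] at this
    rw [e]
    have h4 : p.1 ^ 2 ≤ (1 / 8) ^ 2 := by
      rw [← sq_abs]
      gcongr
    have h5 : p.2 ^ 2 ≤ (1 / 2) ^ 2 := by
      rw [← sq_abs p.2]
      gcongr
    nlinarith [norm_nonneg (φ.symm (p.1, p.2))]
  rw [G_near hs hm hi hf _ hn]
  have hint := near_integrable hs hm hi hf _ hn
  have e : (fun y : E2 => ker h y * f (φ.symm p - y)) =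
      fun y : E2 => (fun q : ℝ × ℝ => h (q.2 / q.1) / (q.1 * |q.1|) * fh f (p.1 - q.1) (p.2 - q.2))
        (y 0, y 1) := by
    ext y
    rw [fh_sub f]
    have e : φ.symm p = φ.symm (p.1, p.2) := rfl
    rw [e, φ_symm0, φ_symm1]
    rfl
  rw [e] at hint ⊢
  rw [int_coord (fun q : ℝ × ℝ => h (q.2 / q.1) / (q.1 * |q.1|) * fh f (p.1 - q.1) (p.2 - q.2))]
  rw [integrable_coord (fun q : ℝ × ℝ => h (q.2 / q.1) / (q.1 * |q.1|) * fh f (p.1 - q.1) (p.2 - q.2))]
    at hint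
  rw [Measure.volume_eq_prod, integral_prod _ (by rwa [← Measure.volume_eq_prod])]
  congr 1
  ext a
  exact inner_eq hf p h1 a

/-- **Pairing formula** -/
lemma pairing (hs : Supp h) (hm : Measurable h) (hi : Integrable h) (hf : Test R f) :
    ∫ x : E2, Ψ (x 0, x 1) * G h f x = ∫ v, h v * Φ f v := by
  have HI := H_integrable hf hm hi
  have e1 : ∫ x : E2, Ψ (x 0, x 1) * G h f x = ∫ p : ℝ × ℝ, Ψ p * G h f (φ.symm p) := by
    rw [← int_coord (fun p => Ψ p * G h f (φ.symm p))]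
    congr 1
    ext x
    rw [← φ_apply, φ.symm_apply_apply]
  have e2 : ∀ p : ℝ × ℝ, Ψ p * G h f (φ.symm p) = ∫ a, ∫ v, W f (p, a) v * h v := by
    intro p
    by_cases hp : Ψ p = 0
    · rw [hp, zero_mul]
      have : ∀ a v, W f (p, a) v * h v = 0 := by
        intro a v
        unfold W
        rw [hp]
        ring
      simp_rw [this]
      simp
    · rw [conv_eq hs hm hi hf p hp, ← integral_const_mul]
      congr 1
      ext a
      rw [← integral_const_mul]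
      congr 1
      ext v
      unfold W
      ring
  have e3 : ∫ p : ℝ × ℝ, ∫ a, ∫ v, W f (p, a) v * h v = ∫ q : (ℝ × ℝ) × ℝ, ∫ v, W f q v * h v := by
    have := HI.integral_prod_left
    rw [Measure.volume_eq_prod (ℝ × ℝ) ℝ] at this ⊢
    rw [integral_prod _ this]
  have e4 : ∫ q : (ℝ × ℝ) × ℝ, ∫ v, W f q v * h v = ∫ v, ∫ q : (ℝ × ℝ) × ℝ, W f q v * h v :=
    integral_integral_swap HI
  rw [e1]
  simp_rw [e2]
  rw [e3, e4]
  congr 1
  ext v
  rw [integral_mul_const]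
  unfold Φ
  ring

end Pool.Agent.U139.Riv
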